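import Pool.Agent.D0H82.SX.Stm
import Pool.Agent.TH321.GF.AQ

set_option autoImplicit false

/-!
# Project SX, module MEAN: twisted first moment of zeta
-/

namespace Pool.Agent.D0H62.SX

open Complex Filter Topology MeasureTheory Set

noncomputable section

/-- a term of the partial sum against `n^(iu)` -/
lemma term_eq {m n : ℕ} (hm : 1 ≤ m) (hn : 1 ≤ n) (u : ℝ) :
    (m : ℂ) ^ (-(1 / 2 + I * (u : ℂ))) * (n : ℂ) ^ (I * (u : ℂ)) =
      (((m : ℝ) ^ (-(1 / 2) : ℝ) : ℝ) : ℂ) * Complex.exp ((I * ((Real.log n - Real.log m : ℝ) : ℂ)) * (u : ℂ)) := by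
  have hm0 : (m : ℂ) ≠ 0 := by exact_mod_cast (by omega : m ≠ 0)
  have hn0 : (n : ℂ) ≠ 0 := by exact_mod_cast (by omega : n ≠ 0)
  have hmr : (0 : ℝ) < m := by exact_mod_cast hm
  rw [Complex.ofReal_cpow hmr.le, Complex.cpow_def_of_ne_zero hm0, Complex.cpow_def_of_ne_zero hn0,
    Complex.cpow_def_of_ne_zero (by exact_mod_cast hmr.ne'), ← Complex.exp_add, ← Complex.exp_add]
  congr 1
  push_cast
  ring

/-- the integral of a character -/
lemma int_exp_le {θ : ℝ} (hθ : θ ≠ 0) (A B : ℝ) :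
    ‖∫ u in A..B, Complex.exp ((I * (θ : ℂ)) * (u : ℂ))‖ ≤ 2 / |θ| := by
  have hc : (I * (θ : ℂ)) ≠ 0 := mul_ne_zero I_ne_zero (by exact_mod_cast hθ)
  rw [integral_exp_mul_complex hc, norm_div, norm_mul, norm_I, one_mul, Complex.norm_real,
    Real.norm_eq_abs]
  gcongr
  have h : ∀ x : ℝ, ‖Complex.exp (I * (θ : ℂ) * (x : ℂ))‖ = 1 := by
    intro x
    rw [Complex.norm_exp]
    simp
  calc ‖Complex.exp (I * (θ : ℂ) * (B : ℂ)) - Complex.exp (I * (θ : ℂ) * (A : ℂ))‖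
      ≤ ‖Complex.exp (I * (θ : ℂ) * (B : ℂ))‖ + ‖Complex.exp (I * (θ : ℂ) * (A : ℂ))‖ := norm_sub_le _ _
    _ = 2 := by rw [h, h]; norm_num

lemma inv_log' {m n : ℕ} (hm : 1 ≤ m) (hmn : m < n) :
    0 < Real.log n - Real.log m ∧
    (Real.log n - Real.log m)⁻¹ ≤ n * ((n : ℝ) - m)⁻¹ := by
  have hm0 : (0 : ℝ) < m := by exact_mod_cast hm
  have hn0 : (0 : ℝ) < n := by exact_mod_cast (by omega : 0 < n)
  have hmn' : (m : ℝ) < n := by exact_mod_cast hmn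
  have h1 : ((n : ℝ) - m) / n ≤ Real.log n - Real.log m := by
    rw [← Real.log_div hn0.ne' hm0.ne']
    refine le_trans ?_ (Real.one_sub_inv_le_log_of_pos (div_pos hn0 hm0))
    rw [inv_div]
    apply le_of_eq
    field_simp
  have h2 : 0 < ((n : ℝ) - m) / n := div_pos (by linarith) hn0
  refine ⟨h2.trans_le h1, ?_⟩
  calc (Real.log n - Real.log m)⁻¹ ≤ (((n : ℝ) - m) / n)⁻¹ := inv_anti₀ h2 h1
    _ = n * ((n : ℝ) - m)⁻¹ := by rw [inv_div]; ring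

lemma harm_le (X : ℕ) : ∑ j ∈ Finset.Icc 1 X, (j : ℝ)⁻¹ ≤ 1 + Real.log X := by
  have h := harmonic_le_one_add_log X
  rw [harmonic_eq_sum_Icc] at h
  push_cast at h
  exact h

lemma sqrt_pow {m X : ℕ} (hm : 1 ≤ m) (hmX : m ≤ X) :
    (m : ℝ) ^ (-(1 / 2) : ℝ) ≤ (X : ℝ) ^ (1 / 2 : ℝ) * (m : ℝ)⁻¹ ∧
    (m : ℝ) ^ (-(1 / 2) : ℝ) * m ≤ (X : ℝ) ^ (1 / 2 : ℝ) := by
  have hm0 : (0 : ℝ) < m := by exact_mod_cast hm
  have hmX' : (m : ℝ) ≤ X := by exact_mod_cast hmX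
  have h1 : (m : ℝ) ^ (-(1 / 2) : ℝ) * m = (m : ℝ) ^ (1 / 2 : ℝ) := by
    nth_rewrite 2 [← Real.rpow_one (m : ℝ)]
    rw [← Real.rpow_add hm0]
    norm_num
  have h2 : (m : ℝ) ^ (1 / 2 : ℝ) ≤ (X : ℝ) ^ (1 / 2 : ℝ) :=
    Real.rpow_le_rpow hm0.le hmX' (by norm_num)
  refine ⟨?_, by rw [h1]; exact h2⟩
  rw [← div_eq_mul_inv, le_div_iff₀ hm0, h1]
  exact h2

/-- one term -/
lemma term_le {m n X : ℕ} (hm : 1 ≤ m) (hmX : m ≤ X) (hn : 1 ≤ n) (hmn : m ≠ n) (A B : ℝ) :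
    ‖∫ u in A..B, (m : ℂ) ^ (-(1 / 2 + I * (u : ℂ))) * (n : ℂ) ^ (I * (u : ℂ))‖ ≤
      2 * (X : ℝ) ^ (1 / 2 : ℝ) * ((m : ℝ)⁻¹ + |(n : ℝ) - m|⁻¹) := by
  have hm0 : (0 : ℝ) < m := by exact_mod_cast hm
  have hn0 : (0 : ℝ) < n := by exact_mod_cast hn
  obtain ⟨s1, s2⟩ := sqrt_pow hm hmX
  simp only [term_eq hm hn]
  rw [intervalIntegral.integral_const_mul, norm_mul, Complex.norm_real, Real.norm_eq_abs,
    abs_of_nonneg (by positivity)]
  rcases lt_or_gt_of_ne hmn with h | h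
  · obtain ⟨l1, l2⟩ := inv_log' hm h
    have hmn' : (m : ℝ) < n := by exact_mod_cast h
    have h3 := int_exp_le l1.ne' A B
    rw [abs_of_pos l1, div_eq_mul_inv] at h3
    have hd : 0 < (n : ℝ) - m := by linarith
    rw [abs_of_pos hd]
    calc (m : ℝ) ^ (-(1 / 2) : ℝ) * ‖∫ u in A..B, Complex.exp ((I * ((Real.log n - Real.log m : ℝ) : ℂ)) * (u : ℂ))‖
        ≤ (m : ℝ) ^ (-(1 / 2) : ℝ) * (2 * (n * ((n : ℝ) - m)⁻¹)) := by
          gcongr
          refine h3.trans ?_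
          gcongr
      _ = 2 * ((m : ℝ) ^ (-(1 / 2) : ℝ) + ((m : ℝ) ^ (-(1 / 2) : ℝ) * m) * ((n : ℝ) - m)⁻¹) := by
          field_simp
          ring
      _ ≤ 2 * ((X : ℝ) ^ (1 / 2 : ℝ) * (m : ℝ)⁻¹ + (X : ℝ) ^ (1 / 2 : ℝ) * ((n : ℝ) - m)⁻¹) := by
          gcongr
      _ = _ := by ring
  · obtain ⟨l1, l2⟩ := inv_log' hn h
    have hmn' : (n : ℝ) < m := by exact_mod_cast h
    have hne : Real.log n - Real.log m ≠ 0 := by
      have : Real.log n - Real.log m < 0 := by linarith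
      exact this.ne
    have h3 := int_exp_le hne A B
    rw [abs_sub_comm, abs_of_pos l1, div_eq_mul_inv] at h3
    have hd : 0 < (m : ℝ) - n := by linarith
    rw [abs_sub_comm, abs_of_pos hd]
    calc (m : ℝ) ^ (-(1 / 2) : ℝ) * ‖∫ u in A..B, Complex.exp ((I * ((Real.log n - Real.log m : ℝ) : ℂ)) * (u : ℂ))‖
        ≤ (m : ℝ) ^ (-(1 / 2) : ℝ) * (2 * (m * ((m : ℝ) - n)⁻¹)) := by
          gcongr
          refine h3.trans ?_
          gcongr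
      _ = 2 * (((m : ℝ) ^ (-(1 / 2) : ℝ) * m) * ((m : ℝ) - n)⁻¹) := by ring
      _ ≤ 2 * ((X : ℝ) ^ (1 / 2 : ℝ) * ((m : ℝ) - n)⁻¹) := by
          gcongr
      _ ≤ 2 * (X : ℝ) ^ (1 / 2 : ℝ) * ((m : ℝ)⁻¹ + ((m : ℝ) - n)⁻¹) := by
          have : 0 ≤ 2 * (X : ℝ) ^ (1 / 2 : ℝ) * (m : ℝ)⁻¹ := by positivity
          linarith

lemma dist_sum {n X : ℕ} (hnX : n ≤ X) :
    ∑ m ∈ (Finset.Icc 1 X).erase n, |(n : ℝ) - m|⁻¹ ≤ 2 * (1 + Real.log X) := by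
  have hs : (Finset.Icc 1 X).erase n = (Finset.Ico 1 n) ∪ (Finset.Ioc n X) := by
    ext m
    simp only [Finset.mem_erase, Finset.mem_Icc, Finset.mem_union, Finset.mem_Ico, Finset.mem_Ioc]
    omega
  have hd : Disjoint (Finset.Ico 1 n) (Finset.Ioc n X) := by
    rw [Finset.disjoint_left]
    intro m h1 h2
    simp only [Finset.mem_Ico, Finset.mem_Ioc] at h1 h2
    omega
  rw [hs, Finset.sum_union hd, two_mul]
  refine add_le_add ?_ ?_
  · have h1 : ∑ m ∈ Finset.Ico 1 n, |(n : ℝ) - m|⁻¹ = ∑ j ∈ (Finset.Ico 1 n).image (fun m => n - m), (j : ℝ)⁻¹ := by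
      rw [Finset.sum_image]
      · refine Finset.sum_congr rfl fun m hm => ?_
        have hm' := Finset.mem_Ico.1 hm
        rw [Nat.cast_sub hm'.2.le, abs_of_nonneg]
        have : (m : ℝ) ≤ n := by exact_mod_cast hm'.2.le
        linarith
      · intro a ha b hb hab
        have ha' := Finset.mem_Ico.1 ha
        have hb' := Finset.mem_Ico.1 hb
        simp only at hab
        omega
    rw [h1]
    refine (Finset.sum_le_sum_of_subset_of_nonneg ?_ ?_).trans (harm_le X)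
    · intro j hj
      obtain ⟨m, hm, rfl⟩ := Finset.mem_image.1 hj
      have hm' := Finset.mem_Ico.1 hm
      rw [Finset.mem_Icc]
      omega
    · intro j _ _
      positivity
  · have h1 : ∑ m ∈ Finset.Ioc n X, |(n : ℝ) - m|⁻¹ = ∑ j ∈ (Finset.Ioc n X).image (fun m => m - n), (j : ℝ)⁻¹ := by
      rw [Finset.sum_image]
      · refine Finset.sum_congr rfl fun m hm => ?_
        have hm' := Finset.mem_Ioc.1 hm
        rw [Nat.cast_sub hm'.1.le, abs_sub_comm, abs_of_nonneg]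
        have : (n : ℝ) ≤ m := by exact_mod_cast hm'.1.le
        linarith
      · intro a ha b hb hab
        have ha' := Finset.mem_Ioc.1 ha
        have hb' := Finset.mem_Ioc.1 hb
        simp only at hab
        omega
    rw [h1]
    refine (Finset.sum_le_sum_of_subset_of_nonneg ?_ ?_).trans (harm_le X)
    · intro j hj
      obtain ⟨m, hm, rfl⟩ := Finset.mem_image.1 hj
      have hm' := Finset.mem_Ioc.1 hm
      rw [Finset.mem_Icc]
      omega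
    · intro j _ _
      positivity

/-- the partial sum against `n^(iu)` -/
lemma poly_le {n X : ℕ} (hn : 1 ≤ n) (hnX : n ≤ X) (A B : ℝ) :
    ‖(∫ u in A..B, (∑ m ∈ Finset.Icc 1 X, (m : ℂ) ^ (-(1 / 2 + I * (u : ℂ)))) * (n : ℂ) ^ (I * (u : ℂ))) -
      ((B - A : ℝ) : ℂ) * (((n : ℝ) ^ (-(1 / 2) : ℝ) : ℝ) : ℂ)‖ ≤
      6 * (X : ℝ) ^ (1 / 2 : ℝ) * (1 + Real.log X) := by
  have hcont : ∀ m : ℕ, 1 ≤ m → Continuous fun u : ℝ => (m : ℂ) ^ (-(1 / 2 + I * (u : ℂ))) * (n : ℂ) ^ (I * (u : ℂ)) := by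
    intro m hm
    simp only [term_eq hm hn]
    fun_prop
  simp only [Finset.sum_mul]
  rw [intervalIntegral.integral_finsetSum (fun m hm => (hcont m (Finset.mem_Icc.1 hm).1).intervalIntegrable _ _)]
  have hmem : n ∈ Finset.Icc 1 X := Finset.mem_Icc.2 ⟨hn, hnX⟩
  rw [← Finset.add_sum_erase _ _ hmem]
  have hdiag : ∫ u in A..B, (n : ℂ) ^ (-(1 / 2 + I * (u : ℂ))) * (n : ℂ) ^ (I * (u : ℂ)) =
      ((B - A : ℝ) : ℂ) * (((n : ℝ) ^ (-(1 / 2) : ℝ) : ℝ) : ℂ) := by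
    simp only [term_eq hn hn, sub_self, Complex.ofReal_zero, mul_zero, zero_mul, Complex.exp_zero, mul_one]
    rw [intervalIntegral.integral_const, Complex.real_smul]
  rw [hdiag, add_sub_cancel_left]
  have hX1 : 1 ≤ X := hn.trans hnX
  calc ‖∑ m ∈ (Finset.Icc 1 X).erase n, ∫ u in A..B, (m : ℂ) ^ (-(1 / 2 + I * (u : ℂ))) * (n : ℂ) ^ (I * (u : ℂ))‖
      ≤ ∑ m ∈ (Finset.Icc 1 X).erase n, 2 * (X : ℝ) ^ (1 / 2 : ℝ) * ((m : ℝ)⁻¹ + |(n : ℝ) - m|⁻¹) := by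
        refine norm_sum_le_of_le _ fun m hm => ?_
        have h1 := Finset.mem_erase.1 hm
        have h2 := Finset.mem_Icc.1 h1.2
        exact term_le h2.1 h2.2 hn h1.1 A B
    _ = 2 * (X : ℝ) ^ (1 / 2 : ℝ) * (∑ m ∈ (Finset.Icc 1 X).erase n, (m : ℝ)⁻¹ +
        ∑ m ∈ (Finset.Icc 1 X).erase n, |(n : ℝ) - m|⁻¹) := by
        rw [← Finset.mul_sum, Finset.sum_add_distrib]
    _ ≤ 2 * (X : ℝ) ^ (1 / 2 : ℝ) * ((1 + Real.log X) + 2 * (1 + Real.log X)) := by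
        gcongr
        · refine (Finset.sum_le_sum_of_subset_of_nonneg (Finset.erase_subset _ _) ?_).trans (harm_le X)
          intro j _ _
          positivity
        · exact dist_sum hnX
    _ = _ := by ring

/-- sizes -/
lemma size_le {T : ℝ} {X : ℕ} (hT : 3 ≤ T) (hX1 : 1 ≤ X) (hX : (X : ℝ) ≤ 4 * T) :
    (X : ℝ) ^ (1 / 2 : ℝ) * (1 + Real.log X) ≤ 8 * (T ^ (1 / 2 : ℝ) * Real.log T) := by
  have hT0 : 0 < T := by linarith
  have hX0 : (0 : ℝ) < X := by exact_mod_cast hX1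
  have h1 : (X : ℝ) ^ (1 / 2 : ℝ) ≤ 2 * T ^ (1 / 2 : ℝ) := by
    calc (X : ℝ) ^ (1 / 2 : ℝ) ≤ (4 * T) ^ (1 / 2 : ℝ) := Real.rpow_le_rpow hX0.le hX (by norm_num)
      _ = 2 * T ^ (1 / 2 : ℝ) := by
        rw [Real.mul_rpow (by norm_num) hT0.le, show (4 : ℝ) = 2 ^ (2 : ℝ) by norm_num,
          ← Real.rpow_mul (by norm_num)]
        norm_num
  have hlog : 1 ≤ Real.log T := by
    rw [Real.le_log_iff_exp_le hT0]
    have := Real.exp_one_lt_d9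
    linarith
  have h2 : Real.log X ≤ 3 * Real.log T := by
    have h4 : Real.log 4 ≤ 2 := by
      rw [show (4 : ℝ) = 2 ^ 2 by norm_num, Real.log_pow]
      have := Real.log_two_lt_d9
      push_cast
      linarith
    calc Real.log X ≤ Real.log (4 * T) := Real.log_le_log hX0 hX
      _ = Real.log 4 + Real.log T := Real.log_mul (by norm_num) hT0.ne'
      _ ≤ 3 * Real.log T := by linarith
  calc (X : ℝ) ^ (1 / 2 : ℝ) * (1 + Real.log X) ≤ (2 * T ^ (1 / 2 : ℝ)) * (4 * Real.log T) := by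
        have h0 : 0 ≤ Real.log X := Real.log_natCast_nonneg X
        gcongr
        linarith
    _ = _ := by ring

/-- (1) MEAN -/
theorem t_MEAN : Pool.Agent.D0H82.SX.S_MEAN := by
  obtain ⟨C, T₀, hC, hT₀, h⟩ := Pool.Agent.TH321.GF.t_AQ
  refine ⟨C + 48, max T₀ 3, by positivity, le_max_right _ _, fun T A B n hT hA hAB hB hn hnT => ?_⟩
  have hT1 : T₀ ≤ T := (le_max_left _ _).trans hT
  have hT3 : 3 ≤ T := (le_max_right _ _).trans hT
  have hX1 : 2 * T ≤ (⌈2 * T⌉₊ : ℝ) := Nat.le_ceil _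
  have hX2 : (⌈2 * T⌉₊ : ℝ) ≤ 4 * T := (Nat.ceil_lt_add_one (by linarith)).le.trans (by linarith)
  set X : ℕ := ⌈2 * T⌉₊ with hX
  have hnX : n ≤ X := by
    have : (n : ℝ) ≤ X := by linarith
    exact_mod_cast this
  have hQ := h T X hT1 hX1 hX2
  have hn0 : (n : ℂ) ≠ 0 := by exact_mod_cast (by omega : n ≠ 0)
  have hcn : Continuous fun u : ℝ => (n : ℂ) ^ (I * (u : ℂ)) :=
    Continuous.const_cpow (by fun_prop) (Or.inl hn0)
  have hnn : ∀ u : ℝ, ‖(n : ℂ) ^ (I * (u : ℂ))‖ = 1 := by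
    intro u
    rw [Complex.norm_natCast_cpow_of_pos (by omega)]
    simp
  have hz : Continuous Pool.Agent.TH612.GS.z := Pool.Agent.TH612.GS.z_cont
  have hP : Continuous (Pool.Agent.TH612.GS.PN X) := Pool.Agent.TH612.GS.PN_cont X
  have e : (∫ u in A..B, Pool.Agent.TH612.GS.z u * (n : ℂ) ^ (I * (u : ℂ))) =
      (∫ u in A..B, (Pool.Agent.TH612.GS.z u - Pool.Agent.TH612.GS.PN X u) * (n : ℂ) ^ (I * (u : ℂ))) +
        ∫ u in A..B, Pool.Agent.TH612.GS.PN X u * (n : ℂ) ^ (I * (u : ℂ)) := by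
    have c1 : Continuous fun u : ℝ => (Pool.Agent.TH612.GS.z u - Pool.Agent.TH612.GS.PN X u) * (n : ℂ) ^ (I * (u : ℂ)) :=
      (hz.sub hP).mul hcn
    have c2 : Continuous fun u : ℝ => Pool.Agent.TH612.GS.PN X u * (n : ℂ) ^ (I * (u : ℂ)) := hP.mul hcn
    rw [← intervalIntegral.integral_add (c1.intervalIntegrable _ _) (c2.intervalIntegrable _ _)]
    refine intervalIntegral.integral_congr fun u _ => ?_
    ring
  rw [e, add_sub_assoc]
  refine (norm_add_le _ _).trans ?_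
  have h1 : ‖∫ u in A..B, (Pool.Agent.TH612.GS.z u - Pool.Agent.TH612.GS.PN X u) * (n : ℂ) ^ (I * (u : ℂ))‖ ≤
      C * (T ^ (1 / 2 : ℝ) * Real.log T) := by
    refine (intervalIntegral.norm_integral_le_integral_norm hAB).trans ?_
    refine le_trans ?_ hQ
    have e2 : ∀ u : ℝ, ‖(Pool.Agent.TH612.GS.z u - Pool.Agent.TH612.GS.PN X u) * (n : ℂ) ^ (I * (u : ℂ))‖ =
        ‖Pool.Agent.TH612.GS.z u - Pool.Agent.TH612.GS.PN X u‖ := by
      intro u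
      rw [norm_mul, hnn, mul_one]
    simp only [e2]
    refine intervalIntegral.integral_mono_interval hA hAB hB ?_ ((hz.sub hP).norm.intervalIntegrable _ _)
    exact Eventually.of_forall fun u => norm_nonneg _
  have h2 : ‖(∫ u in A..B, Pool.Agent.TH612.GS.PN X u * (n : ℂ) ^ (I * (u : ℂ))) -
      ((B - A : ℝ) : ℂ) * (((n : ℝ) ^ (-(1 / 2) : ℝ) : ℝ) : ℂ)‖ ≤
      6 * (X : ℝ) ^ (1 / 2 : ℝ) * (1 + Real.log X) := poly_le hn hnX A B
  have h3 := size_le hT3 (hn.trans hnX) hX2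
  have h4 : (C + 48) * T ^ (1 / 2 : ℝ) * Real.log T = C * (T ^ (1 / 2 : ℝ) * Real.log T) +
      6 * (8 * (T ^ (1 / 2 : ℝ) * Real.log T)) := by ring
  rw [h4]
  refine add_le_add h1 (h2.trans ?_)
  rw [mul_assoc]
  gcongr

end

end Pool.Agent.D0H62.SX

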